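import Pool.Agent.N371.UD.Draw

/-!
# The area of upward planar drawings of bipartite DAGs is quadratic in the worst case

Let `A_p(n)` (`A_s(n)`) be the largest, over all upward planar bipartite DAGs with `n` vertices, of
the least area of a poly-line (straight-line) upward planar grid drawing. Then
`A_p(n) ≥ (n - 19)² / 64` and `A_s(n) ≥ (n - 19)² / 64`. With the known upper bound
`A_p(n) = O(n²)` this gives `A_p(n) = Θ(n²)`.

The graph is the chain of pairs `P_0, P_1, ...`, all members of consecutive pairs being joined. The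
cycle formed by `P_{2i}` and `P_{2i+1}` separates the earlier pairs from the later pairs in every
drawing (a parity argument for monotone curves), so that at least half of these cycles are
nested. The graph has an explicit straight-line drawing.
-/

set_option autoImplicit false

namespace Pool.Agent.Results.MP_9caa86_co.QuadraticArea

open Pool.Agent.N371.UD

theorem finite_values {n : ℕ} (P : (Fin n → Fin n → Prop) → Prop)
    (f : (Fin n → Fin n → Prop) → ℕ) : BddAbove {A | ∃ E, P E ∧ A = f E} := by
  have : {A | ∃ E, P E ∧ A = f E} ⊆ Set.range f := by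
    rintro A ⟨E, -, rfl⟩
    exact ⟨E, rfl⟩
  exact (Set.finite_range f).bddAbove.mono this

/-- `A_p(n) ≥ (n - 19)² / 64` and `A_s(n) ≥ (n - 19)² / 64` for all `n ≥ 19`. -/
theorem result (n : ℕ) (hn : 19 ≤ n) :
    ((n : ℝ) - 19) ^ 2 / 64 ≤ (Ap n : ℝ) ∧ ((n : ℝ) - 19) ^ 2 / 64 ≤ (As n : ℝ) := by
  obtain ⟨W0, H0, h0⟩ := exists_fits (draw n)
  constructor
  · have h1 : ((n : ℝ) - 19) ^ 2 / 64 ≤ (polyArea (GE n) : ℝ) := by
      have hne : {A | ∃ (D : Drawing (GE n)) (W H : ℕ), D.Fits W H ∧ A = W * H}.Nonempty :=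
        ⟨_, draw n, W0, H0, h0, rfl⟩
      obtain ⟨D, W, H, hD, hA⟩ := Nat.sInf_mem hne
      unfold polyArea
      rw [hA]
      exact area_lower hn D hD
    have h2 : polyArea (GE n) ≤ Ap n := by
      apply le_csSup
      · have := finite_values (n := n) (fun E => BipartiteDAG E ∧ Nonempty (Drawing E)) polyArea
        refine this.mono ?_
        rintro A ⟨E, h1, h2, h3⟩
        exact ⟨E, ⟨h1, h2⟩, h3⟩
      · exact ⟨GE n, bipartite_GE n, ⟨draw n⟩, rfl⟩
    exact h1.trans (by exact_mod_cast h2)
  · have h1 : ((n : ℝ) - 19) ^ 2 / 64 ≤ (straightArea (GE n) : ℝ) := by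
      have hne : {A | ∃ D : Drawing (GE n), D.Straight ∧
          ∃ W H : ℕ, D.Fits W H ∧ A = W * H}.Nonempty :=
        ⟨_, draw n, draw_straight n, W0, H0, h0, rfl⟩
      obtain ⟨D, -, W, H, hD, hA⟩ := Nat.sInf_mem hne
      unfold straightArea
      rw [hA]
      exact area_lower hn D hD
    have h2 : straightArea (GE n) ≤ As n := by
      apply le_csSup
      · have := finite_values (n := n)
          (fun E => BipartiteDAG E ∧ ∃ D : Drawing E, D.Straight) straightArea
        refine this.mono ?_
        rintro A ⟨E, h1, h2, h3⟩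
        exact ⟨E, ⟨h1, h2⟩, h3⟩
      · exact ⟨GE n, bipartite_GE n, ⟨draw n, draw_straight n⟩, rfl⟩
    exact h1.trans (by exact_mod_cast h2)

end Pool.Agent.Results.MP_9caa86_co.QuadraticArea
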